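import Pool.Agent.W424.FR.Defs

/-!
FR-F: a visit of a box and a corridor imply three arms.
-/

set_option autoImplicit false

namespace Pool.Agent.W424.FR

open H974 H12S Finset H389NS H984P H984N H342P H984P.SideAux
open Pool.Agent.W92.DP Pool.Agent.W424.OD

theorem Lk.mono {B B' : Set Vtx} (h : B ⊆ B') {σ τ : St} (hl : Lk B σ τ) : Lk B' σ τ := by
  obtain ⟨α, h1, h2⟩ := hl
  exact ⟨α, fun ρ hρ => h1 ρ (fun h' => hρ (h h')), h2⟩

/-- every state outside of the box is linked to a reference state above the box -/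
theorem link_top {c : ℤ × ℤ} {k : ℕ} (σ : St) (hσ : σ.1 ∉ Bd c k) :
    Lk {v | v ∉ Bd c k} σ ((c.1, c.2 + k + 1), .ne) := by
  obtain ⟨M, hM⟩ : ∃ M : ℤ, M = |σ.1.1| + |σ.1.2| + |c.1| + |c.2| + k + 5 := ⟨_, rfl⟩
  have a1 := neg_abs_le σ.1.1
  have a2 := le_abs_self σ.1.1
  have a3 := neg_abs_le σ.1.2
  have a4 := le_abs_self σ.1.2
  have a5 := neg_abs_le c.1
  have a6 := le_abs_self c.1
  have a7 := neg_abs_le c.2
  have a8 := le_abs_self c.2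
  have n1 := abs_nonneg σ.1.1
  have n2 := abs_nonneg σ.1.2
  have n3 := abs_nonneg c.1
  have n4 := abs_nonneg c.2
  -- boxes
  have top : ∀ ρ : St, (-M ≤ ρ.1.1 ∧ ρ.1.1 ≤ M) ∧ (c.2 + k + 1 ≤ ρ.1.2 ∧ ρ.1.2 ≤ M) →
      Lk {v | v ∉ Bd c k} ρ ((c.1, c.2 + k + 1), .ne) := by
    intro ρ hρ
    refine Lk.mono ?_ (Lk.box (a := -M) (b := M) (c := c.2 + k + 1) (d := M) (σ := ρ)
      (τ := ((c.1, c.2 + k + 1), .ne)) hρ ?_)
    · intro v hv
      have hv' : (-M ≤ v.1 ∧ v.1 ≤ M) ∧ (c.2 + k + 1 ≤ v.2 ∧ v.2 ≤ M) := hv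
      show v ∉ Bd c k
      rw [mem_Bd]
      omega
    · show (-M ≤ c.1 ∧ c.1 ≤ M) ∧ (c.2 + k + 1 ≤ c.2 + k + 1 ∧ c.2 + k + 1 ≤ M)
      omega
  have left : ∀ ρ : St, (-M ≤ ρ.1.1 ∧ ρ.1.1 ≤ c.1 - k - 1) ∧ (-M ≤ ρ.1.2 ∧ ρ.1.2 ≤ M) →
      Lk {v | v ∉ Bd c k} ρ ((c.1, c.2 + k + 1), .ne) := by
    intro ρ hρ
    refine (Lk.mono ?_ (Lk.box (a := -M) (b := c.1 - k - 1) (c := -M) (d := M) (σ := ρ)
      (τ := ((c.1 - k - 1, c.2 + k + 1), .ne)) hρ ?_)).trans (top _ ?_)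
    · intro v hv
      have hv' : (-M ≤ v.1 ∧ v.1 ≤ c.1 - k - 1) ∧ (-M ≤ v.2 ∧ v.2 ≤ M) := hv
      show v ∉ Bd c k
      rw [mem_Bd]
      omega
    · show (-M ≤ c.1 - k - 1 ∧ c.1 - k - 1 ≤ c.1 - k - 1) ∧ (-M ≤ c.2 + k + 1 ∧ c.2 + k + 1 ≤ M)
      omega
    · show (-M ≤ c.1 - k - 1 ∧ c.1 - k - 1 ≤ M) ∧ (c.2 + k + 1 ≤ c.2 + k + 1 ∧ c.2 + k + 1 ≤ M)
      omega
  have right : ∀ ρ : St, (c.1 + k + 1 ≤ ρ.1.1 ∧ ρ.1.1 ≤ M) ∧ (-M ≤ ρ.1.2 ∧ ρ.1.2 ≤ M) →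
      Lk {v | v ∉ Bd c k} ρ ((c.1, c.2 + k + 1), .ne) := by
    intro ρ hρ
    refine (Lk.mono ?_ (Lk.box (a := c.1 + k + 1) (b := M) (c := -M) (d := M) (σ := ρ)
      (τ := ((c.1 + k + 1, c.2 + k + 1), .ne)) hρ ?_)).trans (top _ ?_)
    · intro v hv
      have hv' : (c.1 + k + 1 ≤ v.1 ∧ v.1 ≤ M) ∧ (-M ≤ v.2 ∧ v.2 ≤ M) := hv
      show v ∉ Bd c k
      rw [mem_Bd]
      omega
    · show (c.1 + k + 1 ≤ c.1 + k + 1 ∧ c.1 + k + 1 ≤ M) ∧ (-M ≤ c.2 + k + 1 ∧ c.2 + k + 1 ≤ M)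
      omega
    · show (-M ≤ c.1 + k + 1 ∧ c.1 + k + 1 ≤ M) ∧ (c.2 + k + 1 ≤ c.2 + k + 1 ∧ c.2 + k + 1 ≤ M)
      omega
  have bot : ∀ ρ : St, (-M ≤ ρ.1.1 ∧ ρ.1.1 ≤ M) ∧ (-M ≤ ρ.1.2 ∧ ρ.1.2 ≤ c.2 - k - 1) →
      Lk {v | v ∉ Bd c k} ρ ((c.1, c.2 + k + 1), .ne) := by
    intro ρ hρ
    refine (Lk.mono ?_ (Lk.box (a := -M) (b := M) (c := -M) (d := c.2 - k - 1) (σ := ρ)
      (τ := ((c.1 - k - 1, c.2 - k - 1), .ne)) hρ ?_)).trans (left _ ?_)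
    · intro v hv
      have hv' : (-M ≤ v.1 ∧ v.1 ≤ M) ∧ (-M ≤ v.2 ∧ v.2 ≤ c.2 - k - 1) := hv
      show v ∉ Bd c k
      rw [mem_Bd]
      omega
    · show (-M ≤ c.1 - k - 1 ∧ c.1 - k - 1 ≤ M) ∧ (-M ≤ c.2 - k - 1 ∧ c.2 - k - 1 ≤ c.2 - k - 1)
      omega
    · show (-M ≤ c.1 - k - 1 ∧ c.1 - k - 1 ≤ c.1 - k - 1) ∧ (-M ≤ c.2 - k - 1 ∧ c.2 - k - 1 ≤ M)
      omega
  rw [mem_Bd] at hσ
  have hcase : σ.1.1 ≤ c.1 - k - 1 ∨ c.1 + k + 1 ≤ σ.1.1 ∨ σ.1.2 ≤ c.2 - k - 1 ∨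
      c.2 + k + 1 ≤ σ.1.2 := by omega
  rcases hcase with h | h | h | h
  · exact left σ (by omega)
  · exact right σ (by omega)
  · exact bot σ (by omega)
  · exact top σ (by omega)

theorem link_out {c : ℤ × ℤ} {k : ℕ} {σ τ : St} (hσ : σ.1 ∉ Bd c k) (hτ : τ.1 ∉ Bd c k) :
    Lk {v | v ∉ Bd c k} σ τ := (link_top σ hσ).trans (link_top τ hτ).symm

variable {D : Dm} {F : Finset Edg}

/-- the potentials of the walk between `i` and `j`, inside of the box -/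
theorem pots (hD : D.Ok) (hF : F ⊆ D.edges) {c : ℤ × ℤ} {k : ℕ} {i j : ℕ} (hij : i < j)
    (hj : j ≤ D.len F) (h1 : (D.walk F i).1 ∉ Bd c k) (h2 : (D.walk F j).1 ∉ Bd c k) :
    ∃ hv hf : Vtx → ZMod 2,
      (∀ ρ : St, ρ.1 ∈ Bd c k → hv ρ.1 + hf (face ρ) = b2 (ρ ∈ AA D F i j)) ∧
      (∀ ρ : St, ρ.1 ∈ Bd c k → (mv ρ).1 ∈ Bd c k → ae ρ ∈ D.cfg F → hv ρ.1 = hv (mv ρ).1) ∧
      (∀ ρ : St, ρ.1 ∈ Bd c k → ae ρ ∉ D.cfg F → hf (face ρ) = hf (face (rt ρ))) := by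
  obtain ⟨β, hβ1, hβ2⟩ := link_out h1 h2
  obtain ⟨hv, hf, hpot⟩ := pot4 (fun ρ => b2 (ρ ∈ AA D F i j) + β ρ) (by
    intro ρ
    have e1 := AA_T4 hD hF hij hj ρ
    have e2 := hβ2 ρ
    have e3 := z2s (inc (D.walk F i) ρ)
    have e4 := z2s (inc (D.walk F j) ρ)
    unfold T4 at e1 e2 ⊢
    linear_combination e1 + e2 + e3 + e4)
  have hβ : ∀ ρ : St, ρ.1 ∈ Bd c k → β ρ = 0 := fun ρ hρ => hβ1 ρ (fun h => h hρ)
  refine ⟨hv, hf, fun ρ hρ => ?_, fun ρ k1 k1' g1 => ?_, fun ρ k1 g1 => ?_⟩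
  · have := hpot ρ
    simp only [hβ ρ hρ, add_zero] at this
    exact this
  · have k2 := hpot ρ
    have k3 := hpot (mv ρ)
    have k4 := AA_nxt hD hF hij hj ρ
    simp only [hβ ρ k1, add_zero] at k2
    simp only [hβ (mv ρ) k1', add_zero, face_mv] at k3
    have k5 : ¬ mv ρ = D.walk F i := fun g => h1 (g ▸ k1')
    have k6 : ¬ mv ρ = D.walk F j := fun g => h2 (g ▸ k1')
    rw [nxt_open g1, b2_not_of k5, b2_not_of k6, add_zero] at k4
    have k7 := z2s (hf (face ρ))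
    exact z2_eq (by linear_combination k2 + k3 + k4 - k7)
  · have k1' : (rt ρ).1 ∈ Bd c k := by rw [rt_fst]; exact k1
    have k2 := hpot ρ
    have k3 := hpot (rt ρ)
    have k4 := AA_nxt hD hF hij hj ρ
    simp only [hβ ρ k1, add_zero] at k2
    simp only [hβ (rt ρ) k1', add_zero, rt_fst] at k3
    have k5 : ¬ rt ρ = D.walk F i := fun g => h1 (g ▸ k1')
    have k6 : ¬ rt ρ = D.walk F j := fun g => h2 (g ▸ k1')
    rw [nxt_closed g1, b2_not_of k5, b2_not_of k6, add_zero] at k4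
    have k7 := z2s (hv ρ.1)
    exact z2_eq (by linear_combination k2 + k3 + k4 - k7)


theorem AE_Bd {c : ℤ × ℤ} {d k : ℕ} {e : Edg} (h : e ∈ AE c d k) :
    src e ∈ Bd c k ∧ tgt e ∈ Bd c k := by
  unfold AE at h
  rw [Finset.mem_coe, Finset.mem_sdiff, blk_of_ends] at h
  exact h.1


/-- the potentials, in terms of edges -/
theorem potsE (hD : D.Ok) (hF : F ⊆ D.edges) {c : ℤ × ℤ} {k : ℕ} (h2k : 2 ≤ k)
    (bl : D.l < c.1 - k) (_br : c.1 + k < D.r) (bb : 0 < c.2 - k) (bt : c.2 + k < D.h)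
    {i j : ℕ} (hij : i < j)
    (hj : j ≤ D.len F) (h1 : (D.walk F i).1 ∉ Bd c k) (h2 : (D.walk F j).1 ∉ Bd c k) :
    ∃ hv hf : Vtx → ZMod 2,
      (∀ ρ : St, ρ.1 ∈ Bd c k → hv ρ.1 + hf (face ρ) = b2 (ρ ∈ AA D F i j)) ∧
      (∀ e ∈ F, src e ∈ Bd c k → tgt e ∈ Bd c k → hv (src e) = hv (tgt e)) ∧
      (∀ e ∉ F, dsrc e ∈ Bd c (k - 2) → dtgt e ∈ Bd c (k - 2) → hf (dsrc e) = hf (dtgt e)) ∧
      (∀ ρ : St, ρ.1 ∈ Bd c k → (nxt (D.cfg F) ρ).1 ∈ Bd c k → hv (nxt (D.cfg F) ρ).1 = hv ρ.1 ∧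
        hf (face (nxt (D.cfg F) ρ)) = hf (face ρ)) := by
  obtain ⟨hv, hf, p1, p2, p3⟩ := pots hD hF hij hj h1 h2
  refine ⟨hv, hf, p1, ?_, ?_, ?_⟩
  · intro e he hs ht
    obtain ⟨ρ, rfl⟩ := exists_ae e
    have k := p2 ρ
    rw [mv_fst] at k
    rcases ends ρ with ⟨e3, e4⟩ | ⟨e3, e4⟩
    · rw [e3] at hs
      rw [e4] at ht
      rw [e3, e4]
      exact k hs ht (Or.inl he)
    · rw [e3] at hs
      rw [e4] at ht
      rw [e3, e4]
      exact (k ht hs (Or.inl he)).symm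
  · intro e he hs ht
    have hcf : e ∉ D.cfg F := by
      rintro (h | h)
      · exact he h
      · obtain ⟨x, y, b⟩ := e
        unfold Dm.wir at h
        simp only [Set.mem_ofPred_eq] at h
        rw [mem_Bd] at hs ht
        have e1 : ((k - 2 : ℕ) : ℤ) = (k:ℤ) - 2 := by omega
        rw [e1] at hs ht
        cases b
        · simp only [dsrc_false, dtgt_mk] at hs ht
          simp at h
          omega
        · simp only [dsrc_true, dtgt_mk] at hs ht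
          simp at h
          omega
    obtain ⟨ρ, rfl⟩ := exists_ae e
    have hρ : ρ.1 ∈ Bd c k := by
      obtain ⟨⟨x, y⟩, q⟩ := ρ
      rw [mem_Bd] at hs ht
      have e1 : ((k - 2 : ℕ) : ℤ) = (k:ℤ) - 2 := by omega
      rw [e1] at hs ht
      rw [mem_Bd]
      cases q <;> simp only [ae_ne, ae_nw, ae_sw, ae_se, dsrc_true, dsrc_false, dtgt_mk] at hs ht ⊢ <;>
        omega
    have k := p3 ρ hρ hcf
    rw [face_rt] at k
    rcases faces ρ with ⟨e3, e4⟩ | ⟨e3, e4⟩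
    · rw [e3, e4]; exact k
    · rw [e3, e4]; exact k.symm
  · intro ρ hρ hρ'
    by_cases ho : ae ρ ∈ D.cfg F
    · rw [nxt_open ho] at hρ' ⊢
      exact ⟨(p2 ρ hρ hρ' ho).symm, by rw [face_mv]⟩
    · rw [nxt_closed ho]
      exact ⟨by rw [rt_fst], (p3 ρ hρ ho).symm⟩

/-- constancy on an open cluster -/
theorem clP {c : ℤ × ℤ} {d' k' : ℕ} {G : Set Edg} {hv : Vtx → ZMod 2}
    (hop : ∀ e ∈ G, src e ∈ Bd c k' → tgt e ∈ Bd c k' → hv (src e) = hv (tgt e))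
    {u v : Vtx} (h : v ∈ Cl c d' k' G u) : hv v = hv u := by
  have h' : Reach (G ∩ AE c d' k') u v := h
  clear h
  induction h' with
  | refl => rfl
  | tail _ hst ih =>
    obtain ⟨e, ⟨he1, he2⟩, h⟩ := hst
    have hb := AE_Bd he2
    have k := hop e he1 hb.1 hb.2
    rcases h with ⟨e5, e6⟩ | ⟨e5, e6⟩
    · rw [← e6, ← k, e5]; exact ih
    · rw [← e5, k, e6]; exact ih

theorem corridor {c : ℤ × ℤ} {d k : ℕ} {hv : Vtx → ZMod 2} {N : Set Vtx}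
    (hN : ∀ e : Edg, src e ∈ Bd c k → tgt e ∈ Bd c k → src e ∉ N → tgt e ∉ N →
      hv (src e) = hv (tgt e))
    {x y : Vtx} (hxy : x ≠ y)
    (h : Reach ({e | src e ∉ N ∧ tgt e ∉ N} ∩ AE c d k) x y) :
    Reach {e | e ∈ AE c d k ∧ (src e ∉ N ∧ hv (src e) = hv x) ∧ (tgt e ∉ N ∧ hv (tgt e) = hv x)}
      x y := by
  have hx : x ∉ N := by
    rcases Relation.ReflTransGen.cases_head h with h1 | ⟨z, h1, _⟩
    · exact absurd h1 hxy
    · obtain ⟨e, ⟨⟨he1, he2⟩, _⟩, h3⟩ := h1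
      rcases h3 with ⟨e5, e6⟩ | ⟨e5, e6⟩
      · rw [← e5]; exact he1
      · rw [← e6]; exact he2
  clear hxy
  have key : (y ∉ N ∧ hv y = hv x) ∧ Reach {e | e ∈ AE c d k ∧ (src e ∉ N ∧ hv (src e) = hv x) ∧
      (tgt e ∉ N ∧ hv (tgt e) = hv x)} x y := by
    induction h with
    | refl => exact ⟨⟨hx, rfl⟩, Reach.refl _ _⟩
    | tail _ hst ih =>
      obtain ⟨⟨i1, i2⟩, i3⟩ := ih
      obtain ⟨e, ⟨⟨he1, he2⟩, he3⟩, h3⟩ := hst
      have hb := AE_Bd he3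
      have k := hN e hb.1 hb.2 he1 he2
      rcases h3 with ⟨e5, e6⟩ | ⟨e5, e6⟩
      · have hs : hv (src e) = hv x := by rw [e5]; exact i2
        have ht : hv (tgt e) = hv x := by rw [← k]; exact hs
        refine ⟨⟨by rw [← e6]; exact he2, by rw [← e6]; exact ht⟩,
          Relation.ReflTransGen.tail i3 ⟨e, ⟨he3, ⟨he1, hs⟩, he2, ht⟩, Or.inl ⟨e5, e6⟩⟩⟩
      · have ht : hv (tgt e) = hv x := by rw [e6]; exact i2
        have hs : hv (src e) = hv x := by rw [k]; exact ht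
        refine ⟨⟨by rw [← e5]; exact he1, by rw [← e5]; exact hs⟩,
          Relation.ReflTransGen.tail i3 ⟨e, ⟨he3, ⟨he1, hs⟩, he2, ht⟩, Or.inr ⟨e5, e6⟩⟩⟩
  exact key.2

theorem t_F : S_F := by
  intro D F hD hF c d k hdk bl br bb bt i m j him hmj hj hi hm hj' x y hx hy hcor
  have hdk2 : Bd c d ⊆ Bd c k := Bd_mono (by omega)
  have hij : i < j := by
    rcases him.lt_or_eq with h | h
    · omega
    · exfalso; rw [h] at hi; exact hi (hdk2 hm)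
  have hmj' : m < j := by
    rcases hmj.lt_or_eq with h | h
    · exact h
    · exfalso; rw [h] at hm; exact hj' (hdk2 hm)
  obtain ⟨hv, hf, p1, p2, p3, p4⟩ := potsE hD hF (c := c) (k := k) (by omega) bl br bb bt hij hj hi hj'
  obtain ⟨i1, q1, q2, q3, q4⟩ := last_hit (P := fun s => (D.walk F s).1 ∉ Bd c k) hi
    (fun h => h (hdk2 hm)) him
  have hwin : ∀ s, i1 < s → s ≤ m → (D.walk F s).1 ∈ Bd c k := fun s h1 h2 => by
    have := q4 s h1 h2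
    rwa [not_not] at this
  -- constancy along the window
  have hconst : ∀ n, i1 + 1 + n ≤ m → hv (D.walk F (i1 + 1 + n)).1 = hv (D.walk F (i1 + 1)).1 ∧
      hf (face (D.walk F (i1 + 1 + n))) = hf (face (D.walk F (i1 + 1))) := by
    intro n
    induction n with
    | zero => intro _; exact ⟨rfl, rfl⟩
    | succ n ih =>
      intro hn
      have ih' := ih (by omega)
      have e : i1 + 1 + (n + 1) = (i1 + 1 + n) + 1 := by ring
      have w1 := hwin (i1 + 1 + n) (by omega) (by omega)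
      have w2 := hwin (i1 + 1 + n + 1) (by omega) (by omega)
      rw [walk_succ] at w2
      have := p4 _ w1 w2
      rw [e, walk_succ, this.1, this.2]
      exact ih'
  have hsum : hv (D.walk F (i1 + 1)).1 + hf (face (D.walk F (i1 + 1))) = 1 := by
    have w1 := hwin (i1 + 1) (by omega) (by omega)
    rw [p1 _ w1, b2_of ⟨i1 + 1, by omega, by omega, rfl⟩]
  -- start of the window
  have w0 := hwin (i1 + 1) (by omega) (by omega)
  have wb : (D.walk F (i1 + 1)).1 ∈ bdB c k := by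
    refine bd_of w0 q3 ?_
    rw [walk_succ]
    exact nxt_fst _ _
  have k2 : ((k - 2 : ℕ) : ℤ) = (k:ℤ) - 2 := by omega
  have hbdk : ∀ v : Vtx, v ∈ bdB c k → ¬ (|v.1 - c.1| ≤ (k:ℤ) - 1 ∧ |v.2 - c.2| ≤ (k:ℤ) - 1) := by
    rintro v ⟨h1, h2, h3 | h3⟩ ⟨h4, h5⟩ <;> omega
  have wN : (D.walk F (i1 + 1)).1 ∉ Bd c (k - 2) := by
    intro h
    apply hbdk _ wb
    rw [mem_Bd, k2] at h
    rw [abs_le, abs_le]
    omega
  have wNf : face (D.walk F (i1 + 1)) ∉ Bd c (k - 2) := by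
    intro h
    apply hbdk _ wb
    have h1 := face_near (D.walk F (i1 + 1))
    rw [abs_le, abs_le] at h1
    rw [mem_Bd, k2] at h
    rw [abs_le, abs_le]
    omega
  have hd2 : Bd c d ⊆ Bd c (d + 2) := Bd_mono (by omega)
  have hd2k : Bd c (d + 2) ⊆ Bd c (k - 2) := Bd_mono (by omega)
  have hk2k : Bd c (k - 2) ⊆ Bd c k := Bd_mono (by omega)
  have hcfg : ∀ e : Edg, e ∈ D.cfg F → e ∈ blk c k → e ∈ F := by
    intro e h1 h2
    rcases h1 with h1 | h1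
    · exact h1
    · exfalso
      rw [blk_of_ends, mem_Bd, mem_Bd] at h2
      obtain ⟨x, y, b⟩ := e
      unfold Dm.wir at h1
      simp only [Set.mem_ofPred_eq] at h1
      cases b
      · simp only [src_mk, tgt_false] at h2
        simp at h1
        omega
      · simp only [src_mk, tgt_true] at h2
        simp at h1
        omega
  have hmn : i1 + 1 + (m - (i1 + 1)) = m := by omega
  -- open cluster
  obtain ⟨u, hu, w, hw, huw, hvu⟩ : ∃ u ∈ bdB c (d + 2), ∃ w ∈ bdB c (k - 2),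
      w ∈ Cl c (d + 2) (k - 2) (↑F : Set Edg) u ∧ hv u = hv (D.walk F (i1 + 1)).1 := by
    obtain ⟨a, ha0, hai, haP, haN⟩ := first_hit
      (P := fun s => (D.walk F (i1 + 1 + s)).1 ∈ Bd c (d + 2)) (i := m - (i1 + 1))
      (fun h => wN (hd2k h)) (by rw [hmn]; exact hd2 hm)
    have r1 : Reach (D.cfg F \ ↑(blk c (d + 2))) (D.walk F (i1 + 1)).1
        (D.walk F (i1 + 1 + a)).1 :=
      chain hD hF (by omega) (fun s h1 h2 h3 => by
        have := haN (s - (i1 + 1)) (by omega)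
        rw [show i1 + 1 + (s - (i1 + 1)) = s by omega] at this
        exact this h3.1)
    have ba : (D.walk F (i1 + 1 + a)).1 ∈ bdB c (d + 2) := by
      obtain ⟨a', rfl⟩ : ∃ a', a = a' + 1 := ⟨a - 1, by omega⟩
      refine bd_of haP (haN a' (by omega)) ?_
      rw [← add_assoc, walk_succ]
      exact nxt_fst _ _
    obtain ⟨w, hw, hr⟩ := exit_to (hd2k haP) r1.symm wN
    refine ⟨_, ba, w, hw, hr.mono ?_, (hconst a (by omega)).1⟩
    rintro e ⟨⟨h1, h2⟩, h3⟩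
    refine ⟨hcfg e h1 ?_, ?_⟩
    · rw [Finset.mem_coe, blk_of_ends] at h3
      rw [blk_of_ends]
      exact ⟨hk2k h3.1, hk2k h3.2⟩
    · unfold AE
      rw [Finset.coe_sdiff]
      exact ⟨h3, h2⟩
  -- dual cluster
  obtain ⟨u', hu', w', hw', huw', hvu'⟩ : ∃ u' ∈ bdB c (d + 2), ∃ w' ∈ bdB c (k - 2),
      w' ∈ Cl c (d + 2) (k - 2) (dl '' (↑F : Set Edg)ᶜ) u' ∧
        hf u' = hf (face (D.walk F (i1 + 1))) := by
    obtain ⟨a, ha0, hai, haP, haN⟩ := first_hit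
      (P := fun s => face (D.walk F (i1 + 1 + s)) ∈ Bd c (d + 2)) (i := m - (i1 + 1))
      (fun h => wNf (hd2k h)) (by
        rw [hmn]
        have h1 := face_near (D.walk F m)
        rw [abs_le, abs_le] at h1
        rw [mem_Bd] at hm ⊢
        push_cast
        omega)
    have r1 : DReach {e | e ∉ D.cfg F ∧ dl e ∉ blk c (d + 2)} (face (D.walk F (i1 + 1)))
        (face (D.walk F (i1 + 1 + a))) :=
      dchain hD hF (by omega) (fun s h1 h2 h3 => by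
        have := haN (s - (i1 + 1)) (by omega)
        rw [show i1 + 1 + (s - (i1 + 1)) = s by omega] at this
        exact this h3.1)
    have ba : face (D.walk F (i1 + 1 + a)) ∈ bdB c (d + 2) := by
      obtain ⟨a', rfl⟩ : ∃ a', a = a' + 1 := ⟨a - 1, by omega⟩
      refine bd_of haP (haN a' (by omega)) ?_
      rw [← add_assoc, walk_succ]
      exact face_step _ _
    obtain ⟨w, hw, hr⟩ := exit_to (hd2k haP) (reach_dl.mpr r1.symm) wNf
    refine ⟨_, ba, w, hw, hr.mono ?_, (hconst a (by omega)).2⟩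
    rintro _ ⟨⟨e, ⟨h1, h2⟩, rfl⟩, h3⟩
    refine ⟨⟨e, fun h => h1 (Or.inl h), rfl⟩, ?_⟩
    unfold AE
    rw [Finset.coe_sdiff]
    exact ⟨h3, h2⟩
  -- the corridor
  obtain ⟨x', hx', y', hy', -, hcr⟩ := annX (c := c) (d := d + 2) (k := k - 2) (by omega)
    (by
      have := hd2 hx
      exact this) (by
      intro h
      exact hy (hk2k h)) hcor
  have hne : x' ≠ y' := by
    rintro rfl
    obtain ⟨h1, h2, h3⟩ := hx'
    obtain ⟨h4, h5, h6⟩ := hy'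
    rw [k2] at h6
    push_cast at h1 h2 h3
    omega
  have hun : ∀ p : Vtx, p ∉ Nr D F i j → p ∈ Bd c k → ∀ q : Q4, hv p + hf (face (p, q)) = 0 := by
    intro p hp hpk q
    rw [p1 (p, q) hpk]
    apply b2_not_of
    rintro ⟨s, h1, h2, h3⟩
    apply hp
    refine ⟨s, h1, h2.le, ?_, ?_⟩
    · rw [h3]; simp
    · rw [h3]; simp
  have hNe : ∀ e : Edg, src e ∈ Bd c (k - 2) → tgt e ∈ Bd c (k - 2) → src e ∉ Nr D F i j →
      tgt e ∉ Nr D F i j → hv (src e) = hv (tgt e) := by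
    intro e h1 h2 h3 h4
    obtain ⟨x, y, b⟩ := e
    cases b
    · rw [src_mk, tgt_false] at *
      have g1 := hun _ h3 (hk2k h1) .ne
      have g2 := hun _ h4 (hk2k h2) .se
      rw [face_ne] at g1
      rw [face_se, add_sub_cancel_right] at g2
      rw [z2_eq g1, z2_eq g2]
    · rw [src_mk, tgt_true] at *
      have g1 := hun _ h3 (hk2k h1) .ne
      have g2 := hun _ h4 (hk2k h2) .nw
      rw [face_ne] at g1
      rw [face_nw, add_sub_cancel_right] at g2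
      rw [z2_eq g1, z2_eq g2]
  have hpath := corridor hNe hne hcr
  by_cases hκ : hv x' = hv (D.walk F (i1 + 1)).1
  · -- same side as the open cluster
    right
    refine ⟨u', hu', ⟨w', hw', huw'⟩, x', hx', y', hy', hpath.mono ?_⟩
    have hcl : ∀ v, v ∈ Cl c (d + 2) (k - 2) (dl '' (↑F : Set Edg)ᶜ) u' → hf v = hf u' := by
      intro v hv'
      refine clP (G := dl '' (↑F : Set Edg)ᶜ) (hv := hf) ?_ hv'
      rintro _ ⟨e, he, rfl⟩ h1 h2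
      rw [src_dl] at h1 ⊢
      rw [tgt_dl] at h2 ⊢
      exact p3 e he h1 h2
    have hno : ∀ p : Vtx, p ∉ Nr D F i j → p ∈ Bd c (k - 2) → hv p = hv x' →
        p ∉ Cl c (d + 2) (k - 2) (dl '' (↑F : Set Edg)ᶜ) u' := by
      intro p h1 h2 h3 h4
      have g1 := hcl p h4
      have g2 := hun p h1 (hk2k h2) .ne
      have g3 : face (p, Q4.ne) = p := rfl
      rw [g3, g1, hvu', h3, hκ, hsum] at g2
      exact absurd g2 (by decide)
    rintro e ⟨h1, ⟨h2, h3⟩, h4, h5⟩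
    have hb := AE_Bd h1
    exact ⟨h1, hno _ h2 hb.1 h3, hno _ h4 hb.2 h5⟩
  · left
    refine ⟨u, hu, ⟨w, hw, huw⟩, x', hx', y', hy', hpath.mono ?_⟩
    have hcl : ∀ v, v ∈ Cl c (d + 2) (k - 2) (↑F : Set Edg) u → hv v = hv u := by
      intro v hv'
      refine clP (G := (↑F : Set Edg)) (hv := hv) ?_ hv'
      intro e he h1 h2
      exact p2 e he (hk2k h1) (hk2k h2)
    rintro e ⟨h1, ⟨h2, h3⟩, h4, h5⟩
    refine ⟨h1, fun h => hκ ?_, fun h => hκ ?_⟩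
    · rw [← h3, hcl _ h, hvu]
    · rw [← h5, hcl _ h, hvu]

end Pool.Agent.W424.FR
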