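import Pool.Agent.W424.FR.Defs
import Pool.Agent.W347.DPHUp

/-! FR-HP: the probability bound for the half-plane. -/

set_option autoImplicit false

namespace Pool.Agent.W424.FR

open H974 H12S Finset H389NS H984P H984N MeasureTheory Filter Topology Pool.Agent.W92.DP
open Pool.Agent.W424.OD
open Pool.Agent.W462.DPL (sizes ctr okh)
open Pool.Agent.W347.DPHUp

theorem t_HP : S_HP := by
  intro hHD hF hLAT hAD hU3
  obtain ⟨C0, hC0, hA'⟩ := hU3
  have hD' := hAD C0 hA'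
  refine ⟨(C0 + C0 + 1) * 256 ^ (2/3 : ℝ), by positivity, ?_⟩
  intro z r d ζ n hr hrd hball hn hnr hζ0
  have hd0 : 0 < d := hr.trans_le hrd
  have hn0 : (0 : ℝ) < n := by exact_mod_cast hn
  obtain ⟨δ, hδd⟩ : ∃ δ : ℝ, δ = (n : ℝ) ^ (-(4/7) : ℝ) := ⟨_, rfl⟩
  have hδ : 0 < δ := by rw [hδd]; exact Real.rpow_pos_of_pos hn0 _
  have hδr : δ ≤ r := by rw [hδd]; exact hnr
  have hζ : 10 * δ ≤ ζ := by rw [hδd]; exact hζ0
  have hq : 0 < r / d := by positivity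
  have hRHS : (C0 + C0 + 1) * 256 ^ (2/3 : ℝ) * (r / d) ^ (2/3 : ℝ) =
      (C0 + C0 + 1) * (256 * (r / d)) ^ (2/3 : ℝ) := by
    rw [Real.mul_rpow (by norm_num) hq.le]
    ring
  rw [hRHS]
  by_cases h256 : 256 * r ≤ d
  · obtain ⟨s1, s2, s3, s4⟩ := sizes hδ hδr h256
    have b3 := up_box hδ (by linarith) hball
    set c := ctr δ (z + (δ : ℂ) * Complex.I) with hc
    set k : ℕ := ⌊d / (8 * δ)⌋₊ with hk
    obtain ⟨ρ, hρ⟩ : ∃ ρ : ℤ, ρ = n + |c.1| + |c.2| + k + 1 := ⟨_, rfl⟩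
    have a1 := neg_abs_le c.1
    have a2 := le_abs_self c.1
    have a3 := le_abs_self c.2
    have a4 := abs_nonneg c.1
    have a5 := abs_nonneg c.2
    have b1 : -ρ < c.1 - (k : ℕ) := by omega
    have b2 : c.1 + (k : ℕ) < ρ := by omega
    have b4 : c.2 + (k : ℕ) < ρ := by omega
    have hsub : blk c k ⊆ (H984H.bx ρ).edges :=
      RE_subset b1.le b2.le b3.le b4.le
    have hsub1 : ∀ k' : ℕ, k' ≤ k → blk c k' ⊆ (H984H.bx ρ).edges := by
      intro k' hk'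
      refine (RE_subset ?_ ?_ ?_ ?_).trans hsub <;> omega
    have h1 := hA' c (⌈r / δ⌉₊ + 3 + 2) (k - 2) (by omega) s2
      (H984H.bx ρ).edges (hsub1 _ (by omega))
    have h2 := hD' c (⌈r / δ⌉₊ + 3 + 2) (k - 2) (by omega) s2
      (H984H.bx ρ).edges (hsub1 _ (by omega))
    have hmono : H984H.perc.real {ω | H984H.curve n ω ∈ EvH z r (d / 2) ζ} ≤
        PQ (1/2) (H984H.bx ρ).edges (fun F =>
          A3v c (⌈r / δ⌉₊ + 3 + 2) (k - 2) ↑F ∨
          A3d c (⌈r / δ⌉₊ + 3 + 2) (k - 2) ↑F) := by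
      have e := H984H.perc_cut ρ (fun F => A3v c (⌈r / δ⌉₊ + 3 + 2) (k - 2) ↑F ∨
          A3d c (⌈r / δ⌉₊ + 3 + 2) (k - 2) ↑F)
      refine le_trans ?_ (le_of_eq e)
      refine measureReal_mono ?_ (measure_ne_top _ _)
      intro ω hω
      refine hHD hF hLAT z r d δ ζ hδ hδr h256 hζ hball n ω ρ (by omega) b1 b2 b4 ?_
      rw [hδd]
      exact hω
    have hor := Pr_or_le okh (H984H.bx ρ).edges
      (fun F => A3v c (⌈r / δ⌉₊ + 3 + 2) (k - 2) ↑F)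
      (fun F => A3d c (⌈r / δ⌉₊ + 3 + 2) (k - 2) ↑F)
    have hpow : (((⌈r / δ⌉₊ + 3 + 2 : ℕ) : ℝ) / ((k - 2 : ℕ) : ℝ)) ^ (2/3 : ℝ) ≤
        (256 * (r / d)) ^ (2/3 : ℝ) :=
      Real.rpow_le_rpow (by positivity) s4 (by norm_num)
    have hx0 : 0 ≤ (256 * (r / d)) ^ (2/3 : ℝ) := by positivity
    have h3 := mul_le_mul_of_nonneg_left hpow hC0.le
    have h5 := hmono.trans (hor.trans (add_le_add (h1.trans h3) (h2.trans h3)))
    refine h5.trans ?_
    nlinarith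
  · push Not at h256
    have h1 : H984H.perc.real {ω | H984H.curve n ω ∈ EvH z r (d / 2) ζ} ≤ 1 :=
      measureReal_le_one
    refine h1.trans ?_
    have h2 : 1 ≤ 256 * (r / d) := by
      rw [← mul_div_assoc, le_div_iff₀ hd0]
      linarith
    have h3 : 1 ≤ (256 * (r / d)) ^ (2/3 : ℝ) := Real.one_le_rpow h2 (by norm_num)
    nlinarith

end Pool.Agent.W424.FR
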