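import Pool.Agent.W424.FR.Defs

/-! FR-LAT: a lattice path along a curve. -/

set_option autoImplicit false

namespace Pool.Agent.W424.FR

open H974 H12S Finset H389NS
open Pool.Agent.W92.DP Pool.Agent.W424.OD

theorem rd_near {δ : ℝ} (hδ : 0 < δ) (z : ℂ) : dist (pv δ (rd δ z)) z ≤ δ := by
  rw [dist_eq_norm]
  refine (Complex.norm_le_abs_re_add_abs_im _).trans ?_
  have key : ∀ x : ℝ, |δ * ((round (x / δ) : ℤ) : ℝ) - x| ≤ 1 / 2 * δ := by
    intro x
    have h := abs_sub_round (x / δ)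
    have e : δ * ((round (x / δ) : ℤ) : ℝ) - x = -(δ * (x / δ - round (x / δ))) := by
      field_simp
      ring
    rw [e, abs_neg, abs_mul, abs_of_pos hδ]
    calc δ * |x / δ - round (x / δ)| ≤ δ * (1 / 2) := by gcongr
      _ = 1 / 2 * δ := by ring
  have h1 := key z.re
  have h2 := key z.im
  rw [Complex.sub_re, Complex.sub_im]
  have e1 : (pv δ (rd δ z)).re = δ * ((round (z.re / δ) : ℤ) : ℝ) := rfl
  have e2 : (pv δ (rd δ z)).im = δ * ((round (z.im / δ) : ℤ) : ℝ) := rfl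
  rw [e1, e2]
  linarith

theorem pv_near1 {δ : ℝ} (hδ : 0 < δ) {x x' y : ℤ} (h : x' = x ∨ x' = x + 1 ∨ x' = x - 1) :
    dist (pv δ (x', y)) (pv δ (x, y)) ≤ δ := by
  rw [dist_eq_norm]
  refine (Complex.norm_le_abs_re_add_abs_im _).trans ?_
  rw [Complex.sub_re, Complex.sub_im]
  have e1 : (pv δ (x', y)).re - (pv δ (x, y)).re = δ * ((x' : ℝ) - x) := by
    show δ * (x' : ℝ) - δ * (x : ℝ) = _
    ring
  have e2 : (pv δ (x', y)).im - (pv δ (x, y)).im = 0 := by
    show δ * (y : ℝ) - δ * (y : ℝ) = _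
    ring
  rw [e1, e2, abs_zero, add_zero, abs_mul, abs_of_pos hδ]
  have h3 : |(x' : ℝ) - x| ≤ 1 := by
    rw [abs_le]
    rcases h with h | h | h
    · rw [h]; constructor <;> linarith
    · rw [h]; push_cast; constructor <;> linarith
    · rw [h]; push_cast; constructor <;> linarith
  calc δ * |(x' : ℝ) - x| ≤ δ * 1 := by gcongr
    _ = δ := mul_one _

theorem lat_step {δ : ℝ} (hδ : 0 < δ) {B : Set Vtx} {a b : ℂ}
    (ha : ∀ w, dist (pv δ w) a ≤ 2 * δ → w ∉ B) (hb : ∀ w, dist (pv δ w) b ≤ 2 * δ → w ∉ B)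
    (hab : dist a b < δ) :
    Reach {e : Edg | src e ∉ B ∧ tgt e ∉ B} (rd δ a) (rd δ b) := by
  have hc : ∀ x y : ℝ, |x - y| ≤ dist a b → |x / δ - y / δ| < 1 := by
    intro x y h
    rw [← sub_div, abs_div, abs_of_pos hδ, div_lt_one hδ]
    exact lt_of_le_of_lt h hab
  have hre : |a.re - b.re| ≤ dist a b := by
    rw [dist_eq_norm, ← Complex.sub_re]
    exact Complex.abs_re_le_norm _
  have him : |a.im - b.im| ≤ dist a b := by
    rw [dist_eq_norm, ← Complex.sub_im]
    exact Complex.abs_im_le_norm _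
  have h1 := round_step (hc _ _ hre)
  have h2 := round_step (hc _ _ him)
  have na : rd δ a ∉ B := ha _ ((rd_near hδ a).trans (by linarith))
  have nb : rd δ b ∉ B := hb _ ((rd_near hδ b).trans (by linarith))
  have hm : ((round (b.re / δ), round (a.im / δ)) : Vtx) ∉ B := by
    apply ha
    have h3 := pv_near1 hδ (y := round (a.im / δ)) h1
    have h4 := rd_near hδ a
    have h5 := dist_triangle (pv δ (round (b.re / δ), round (a.im / δ)))
      (pv δ (rd δ a)) a
    have h6 : dist (pv δ (round (b.re / δ), round (a.im / δ))) (pv δ (rd δ a)) ≤ δ := h3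
    linarith
  exact (hstep na hm h1).trans (vstep hm nb h2)

theorem t_LAT : S_LAT := by
  intro δ hδ
  refine ⟨rd_near hδ, fun B g hB => ?_⟩
  have huc : UniformContinuous g := CompactSpace.uniformContinuous_of_continuous g.continuous
  rw [Metric.uniformContinuous_iff] at huc
  obtain ⟨η, hη, hg⟩ := huc δ hδ
  obtain ⟨N, hN⟩ := exists_nat_one_div_lt hη
  have hN1 : (0:ℝ) < ((N + 1 : ℕ) : ℝ) := by positivity
  have key : ∀ i : ℕ, Reach {e : Edg | src e ∉ B ∧ tgt e ∉ B} (rd δ (g 0))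
      (rd δ (g (Set.projIcc (0:ℝ) 1 zero_le_one ((i : ℝ) / ((N + 1 : ℕ) : ℝ))))) := by
    intro i
    induction i with
    | zero =>
      have e : Set.projIcc (0:ℝ) 1 zero_le_one (((0 : ℕ) : ℝ) / ((N + 1 : ℕ) : ℝ)) = 0 := by
        rw [Nat.cast_zero, zero_div]
        exact Set.projIcc_left _
      rw [e]
      exact Reach.refl _ _
    | succ i ih =>
      refine ih.trans (lat_step hδ (hB _) (hB _) (hg ?_))
      rw [Subtype.dist_eq, Real.dist_eq]
      refine lt_of_le_of_lt (Set.abs_projIcc_sub_projIcc (zero_le_one' ℝ)) ?_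
      have e : (i : ℝ) / ((N + 1 : ℕ) : ℝ) - ((i + 1 : ℕ) : ℝ) / ((N + 1 : ℕ) : ℝ) =
          -(1 / ((N : ℝ) + 1)) := by
        push_cast
        field_simp
        ring
      rw [e, abs_neg, abs_of_pos (by positivity)]
      exact hN
  have h1 := key (N + 1)
  have e : Set.projIcc (0:ℝ) 1 zero_le_one (((N + 1 : ℕ) : ℝ) / ((N + 1 : ℕ) : ℝ)) = 1 := by
    rw [div_self hN1.ne']
    exact Set.projIcc_right _
  rw [e] at h1
  exact h1

end Pool.Agent.W424.FR
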