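import Pool.Agent.W424.FR.Defs
import Pool.Agent.W462.DPL.C

/-! FR-RP, FR-HP: the probability bounds. -/

set_option autoImplicit false

namespace Pool.Agent.W424.FR

open H974 H12S Finset H389NS H984P H984N MeasureTheory Filter Topology Pool.Agent.W92.DP
open Pool.Agent.W424.OD
open Pool.Agent.W462.DPL (okh dom_box sizes ctr)

theorem t_RP : S_RP := by
  intro hRD hF hLAT hAD hU3 R
  obtain ⟨κ, S, δ0, hκ, hS, hδ0, hδ1, hsh⟩ := R.shape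
  obtain ⟨C0, hC0, hA'⟩ := hU3
  have hD' := hAD C0 hA'
  refine ⟨(C0 + C0 + 1) * 256 ^ (2/3 : ℝ), by positivity, δ0, hδ0, ?_⟩
  intro z r d δ ζ hr hrd hball hδ hδr hδδ hζ
  have hd0 : 0 < d := hr.trans_le hrd
  have hq : 0 < r / d := by positivity
  have hRHS : (C0 + C0 + 1) * 256 ^ (2/3 : ℝ) * (r / d) ^ (2/3 : ℝ) =
      (C0 + C0 + 1) * (256 * (r / d)) ^ (2/3 : ℝ) := by
    rw [Real.mul_rpow (by norm_num) hq.le]
    ring
  rw [hRHS]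
  by_cases h256 : 256 * r ≤ d
  · obtain ⟨s1, s2, s3, s4⟩ := sizes hδ hδr h256
    obtain ⟨b1, b2, b3, b4⟩ := dom_box R hδ (by linarith) hball
    have hsub : blk (ctr δ z) ⌊d / (8 * δ)⌋₊ ⊆ (R.dm δ).edges :=
      RE_subset b1.le b2.le b3.le b4.le
    have hsub1 : ∀ k : ℕ, k ≤ ⌊d / (8 * δ)⌋₊ → blk (ctr δ z) k ⊆ (R.dm δ).edges := by
      intro k hk
      refine (RE_subset ?_ ?_ ?_ ?_).trans hsub <;> omega
    have h1 := hA' (ctr δ z) (⌈r / δ⌉₊ + 3 + 2) (⌊d / (8 * δ)⌋₊ - 2) (by omega) s2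
      (R.dm δ).edges (hsub1 _ (by omega))
    have h2 := hD' (ctr δ z) (⌈r / δ⌉₊ + 3 + 2) (⌊d / (8 * δ)⌋₊ - 2) (by omega) s2
      (R.dm δ).edges (hsub1 _ (by omega))
    have hmono : R.prob δ (fun F => R.curve δ F ∈ EvH z r (d / 2) ζ) ≤
        PQ (1/2) (R.dm δ).edges (fun F =>
          A3v (ctr δ z) (⌈r / δ⌉₊ + 3 + 2) (⌊d / (8 * δ)⌋₊ - 2) ↑F ∨
          A3d (ctr δ z) (⌈r / δ⌉₊ + 3 + 2) (⌊d / (8 * δ)⌋₊ - 2) ↑F) := by
      apply Pr_mono okh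
      intro F hF' hE
      exact hRD hF hLAT R z r d δ ζ hδ hδr h256 hζ hball (hsh δ hδ hδδ).ok F hF' hE
    have hor := Pr_or_le okh (R.dm δ).edges
      (fun F => A3v (ctr δ z) (⌈r / δ⌉₊ + 3 + 2) (⌊d / (8 * δ)⌋₊ - 2) ↑F)
      (fun F => A3d (ctr δ z) (⌈r / δ⌉₊ + 3 + 2) (⌊d / (8 * δ)⌋₊ - 2) ↑F)
    have hpow : (((⌈r / δ⌉₊ + 3 + 2 : ℕ) : ℝ) / ((⌊d / (8 * δ)⌋₊ - 2 : ℕ) : ℝ)) ^ (2/3 : ℝ) ≤
        (256 * (r / d)) ^ (2/3 : ℝ) :=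
      Real.rpow_le_rpow (by positivity) s4 (by norm_num)
    have hx0 : 0 ≤ (256 * (r / d)) ^ (2/3 : ℝ) := by positivity
    have h3 := mul_le_mul_of_nonneg_left hpow hC0.le
    have h5 := hmono.trans (hor.trans (add_le_add (h1.trans h3) (h2.trans h3)))
    refine h5.trans ?_
    nlinarith
  · push Not at h256
    have h1 : R.prob δ (fun F => R.curve δ F ∈ EvH z r (d / 2) ζ) ≤ 1 :=
      Pr_le_one okh _ _
    refine h1.trans ?_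
    have h2 : 1 ≤ 256 * (r / d) := by
      rw [← mul_div_assoc, le_div_iff₀ hd0]
      linarith
    have h3 : 1 ≤ (256 * (r / d)) ^ (2/3 : ℝ) := Real.one_le_rpow h2 (by norm_num)
    nlinarith

end Pool.Agent.W424.FR
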