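import Pool.Agent.W424.KI.Fin
import Pool.Agent.W424.FR.T_F
import Pool.Agent.W424.FR.T_AD
import Pool.Agent.W424.FR.T_LAT
import Pool.Agent.W743.FR.T_LIM
import Pool.Agent.W435.FR.T_RL
import Pool.Agent.W313.FR.T_HD
import Pool.Agent.W388.FR.T_RD
import Pool.Agent.W45.FR.OpEv
import Pool.Agent.W991.FR.T_HL
import Pool.Agent.W424.FR.T_RP
import Pool.Agent.W424.FR.T_HP

/-! Boundaries of the components of the complement of the exploration path: assembly. -/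

set_option autoImplicit false

namespace Pool.Agent.W424.FR

open H984N MeasureTheory Filter Topology

theorem rect (R : Rect) (δ : ℕ → ℝ) (hδ : ∀ i, 0 < δ i) (hlim : Tendsto δ atTop (𝓝 0))
    (μ : ProbabilityMeasure X) (hμ : Tendsto (fun i => R.law (δ i)) atTop (𝓝 μ)) :
    ∀ᵐ p ∂(μ : Measure X), dimH (Fr p.1 ∩ R.D) ≤ 4 / 3 :=
  Pool.Agent.W435.FR.t_RL Pool.Agent.W45.FR.t_OP Pool.Agent.W743.FR.t_LIM Pool.Agent.W45.FR.t_EV R
    (t_RP Pool.Agent.W388.FR.t_RD t_F t_LAT t_AD Pool.Agent.W424.KI.u3 R)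
    δ hδ hlim μ hμ

theorem half (φ : ℕ → ℕ) (hφ : Tendsto φ atTop atTop)
    (μ : ProbabilityMeasure C(unitInterval, ℂ))
    (hμ : Tendsto (fun i => H984H.lawH (φ i)) atTop (𝓝 μ)) :
    ∀ᵐ f : C(unitInterval, ℂ) ∂(μ : Measure C(unitInterval, ℂ)),
      dimH {z : ℂ | 0 < z.im ∧ z ∈ Fr f} ≤ 4 / 3 := by
  filter_upwards [Pool.Agent.W991.FR.t_HL Pool.Agent.W45.FR.t_OP Pool.Agent.W743.FR.t_LIM
    Pool.Agent.W45.FR.t_EV (t_HP Pool.Agent.W313.FR.t_HD t_F t_LAT t_AD Pool.Agent.W424.KI.u3)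
    φ hφ μ hμ] with f hf
  rw [Set.inter_comm] at hf
  exact hf

end Pool.Agent.W424.FR
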