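import Pool.Agent.W424.OD.Upper
import Pool.Agent.W92.DP.Dich
import Pool.Agent.W347.DPHUp

/-!
# Boundaries of the components of the complement of the exploration path: definitions, steps

(every step is a `Prop`, nothing is assumed)
-/

set_option autoImplicit false

namespace Pool.Agent.W424.FR

open H974 H12S Finset H389NS H984P H984N MeasureTheory Filter Topology
open Pool.Agent.W92.DP Pool.Agent.W424.OD
open Pool.Agent.W462.DPL (ctr)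

/-- The three-arm event (closed, open, open) in an annulus of the lattice of faces. -/
def A3d (c : ℤ × ℤ) (d k : ℕ) (F : Set Edg) : Prop := A3v c d k (dl '' Fᶜ)

/-- The vertices near the vertices of the walk between the times `i` and `j`. -/
def Nr (D : Dm) (F : Finset Edg) (i j : ℕ) : Set Vtx :=
  {v | ∃ s, i ≤ s ∧ s ≤ j ∧ |v.1 - (D.walk F s).1.1| ≤ 2 ∧ |v.2 - (D.walk F s).1.2| ≤ 2}

/-- FR-F: a visit of a box and a lattice path from the box to large distance which avoids the walk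
imply three arms. -/
def S_F : Prop := ∀ (D : Dm) (F : Finset Edg), D.Ok → F ⊆ D.edges →
  ∀ (c : ℤ × ℤ) (d k : ℕ), d + 6 ≤ k → D.l < c.1 - k → c.1 + k < D.r → 0 < c.2 - k →
  c.2 + k < D.h → ∀ i m j : ℕ, i ≤ m → m ≤ j → j ≤ D.len F →
    (D.walk F i).1 ∉ Bd c k → (D.walk F m).1 ∈ Bd c d → (D.walk F j).1 ∉ Bd c k →
    ∀ x y : Vtx, x ∈ Bd c d → y ∉ Bd c k →
      Reach {e | src e ∉ Nr D F i j ∧ tgt e ∉ Nr D F i j} x y →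
      A3v c (d + 2) (k - 2) ↑F ∨ A3d c (d + 2) (k - 2) ↑F

/-- FR-AD: the dual bound. -/
def S_AD : Prop := ∀ C : ℝ, (∀ (c : ℤ × ℤ) (d k : ℕ), 1 ≤ d → d ≤ k →
  ∀ S : Finset Edg, blk c k ⊆ S →
    PQ (1/2) S (fun F => A3v c d k ↑F) ≤ C * ((d:ℝ) / k) ^ (2/3 : ℝ)) →
  ∀ (c : ℤ × ℤ) (d k : ℕ), 1 ≤ d → d ≤ k → ∀ S : Finset Edg, blk c (k + 1) ⊆ S →
    PQ (1/2) S (fun F => A3d c d k ↑F) ≤ C * ((d:ℝ) / k) ^ (2/3 : ℝ)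

/-- Closest lattice point, mesh `δ`. -/
noncomputable def rd (δ : ℝ) (z : ℂ) : Vtx := (round (z.re / δ), round (z.im / δ))

/-- The lattice point `v`, mesh `δ`. -/
noncomputable def pv (δ : ℝ) (v : Vtx) : ℂ := ⟨δ * v.1, δ * v.2⟩

/-- FR-LAT: a lattice path along a curve. -/
def S_LAT : Prop := ∀ (δ : ℝ), 0 < δ → (∀ z : ℂ, dist (pv δ (rd δ z)) z ≤ δ) ∧
  ∀ (B : Set Vtx) (g : C(unitInterval, ℂ)), (∀ t w, dist (pv δ w) (g t) ≤ 2 * δ → w ∉ B) →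
    Reach {e : Edg | src e ∉ B ∧ tgt e ∉ B} (rd δ (g 0)) (rd δ (g 1))

/-- For some time `t`, the curve visits the disc `B(z, r)` before `t`, is outside of the disc
`B(z, ρ)` at the time `t`, and some path `g` from `B(z, r)` to the outside of `B(z, ρ)` keeps a
distance larger than `ζ` from the curve before `t`. -/
def EvH (z : ℂ) (r ρ ζ : ℝ) : Set C(unitInterval, ℂ) :=
  {f | ∃ t : unitInterval, (∃ s, s ≤ t ∧ dist (f s) z < r) ∧ ρ < dist (f t) z ∧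
    ∃ g : C(unitInterval, ℂ), dist (g 0) z < r ∧ ρ < dist (g 1) z ∧
      ∀ s, s ≤ t → ∀ u, ζ < dist (g u) (f s)}

/-- FR-HD: the deterministic part for the half-plane exploration path. -/
def S_HD : Prop := S_F → S_LAT → ∀ (z : ℂ) (r d δ ζ : ℝ), 0 < δ → δ ≤ r → 256 * r ≤ d →
  10 * δ ≤ ζ → Metric.ball z d ⊆ {w : ℂ | 0 < w.im} → ∀ (n : ℕ) (ω : H984H.Conf) (ρ : ℤ),
  (n : ℤ) < ρ →
  -ρ < (ctr δ (z + (δ : ℂ) * Complex.I)).1 - (⌊d / (8 * δ)⌋₊ : ℕ) →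
  (ctr δ (z + (δ : ℂ) * Complex.I)).1 + (⌊d / (8 * δ)⌋₊ : ℕ) < ρ →
  (ctr δ (z + (δ : ℂ) * Complex.I)).2 + (⌊d / (8 * δ)⌋₊ : ℕ) < ρ →
  H984N.pl n (fun k => (δ : ℂ) * H984H.gam ω k) ∈ EvH z r (d / 2) ζ →
    A3v (ctr δ (z + (δ : ℂ) * Complex.I)) (⌈r / δ⌉₊ + 3 + 2) (⌊d / (8 * δ)⌋₊ - 2)
        ↑(H984H.cut ω ρ) ∨
      A3d (ctr δ (z + (δ : ℂ) * Complex.I)) (⌈r / δ⌉₊ + 3 + 2) (⌊d / (8 * δ)⌋₊ - 2)
        ↑(H984H.cut ω ρ)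

/-- FR-HP: probability bound for the half-plane exploration path. -/
def S_HP : Prop := S_HD → S_F → S_LAT → S_AD → U3 → ∃ C : ℝ, 0 < C ∧
  ∀ (z : ℂ) (r d ζ : ℝ) (n : ℕ), 0 < r → r ≤ d → Metric.ball z d ⊆ {w : ℂ | 0 < w.im} → 1 ≤ n →
    (n : ℝ) ^ (-(4/7) : ℝ) ≤ r → 10 * (n : ℝ) ^ (-(4/7) : ℝ) ≤ ζ →
      H984H.perc.real {ω | H984H.curve n ω ∈ EvH z r (d / 2) ζ} ≤ C * (r / d) ^ (2/3 : ℝ)

/-- FR-RD: the deterministic part for the exploration path in a rectangle. -/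
def S_RD : Prop := S_F → S_LAT → ∀ (R : Rect) (z : ℂ) (r d δ ζ : ℝ), 0 < δ → δ ≤ r →
  256 * r ≤ d → 10 * δ ≤ ζ → Metric.ball z d ⊆ R.D → (R.dm δ).Ok → ∀ F : Finset Edg,
  F ⊆ (R.dm δ).edges → R.curve δ F ∈ EvH z r (d / 2) ζ →
    A3v (ctr δ z) (⌈r / δ⌉₊ + 3 + 2) (⌊d / (8 * δ)⌋₊ - 2) ↑F ∨
      A3d (ctr δ z) (⌈r / δ⌉₊ + 3 + 2) (⌊d / (8 * δ)⌋₊ - 2) ↑F

/-- FR-RP: probability bound for the exploration path in a rectangle. -/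
def S_RP : Prop := S_RD → S_F → S_LAT → S_AD → U3 → ∀ R : Rect, ∃ C : ℝ, 0 < C ∧
  ∃ δ0 : ℝ, 0 < δ0 ∧ ∀ (z : ℂ) (r d δ ζ : ℝ), 0 < r → r ≤ d → Metric.ball z d ⊆ R.D → 0 < δ →
    δ ≤ r → δ ≤ δ0 → 10 * δ ≤ ζ →
      R.prob δ (fun F => R.curve δ F ∈ EvH z r (d / 2) ζ) ≤ C * (r / d) ^ (2/3 : ℝ)

/-- The points which, at some time `t` at which the curve is somewhere else, are on the boundary of
a connected component of the complement of the curve up to the time `t`. -/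
def Fr (f : C(unitInterval, ℂ)) : Set ℂ :=
  {z | ∃ t : unitInterval, f t ≠ z ∧ ∃ w : ℂ, w ∉ f '' Set.Iic t ∧
    z ∈ frontier (connectedComponentIn (f '' Set.Iic t)ᶜ w)}

/-- FR-OP: the events are open. -/
def S_OP : Prop := ∀ (z : ℂ) (r ρ ζ : ℝ), IsOpen (EvH z r ρ ζ)

/-- FR-EV: a point of `Fr f` near `z` forces one of the events. -/
def S_EV : Prop := ∀ (f : C(unitInterval, ℂ)) (w : ℂ) (t : unitInterval) (y : ℂ) (η : ℝ),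
  η ≤ dist (f t) w → y ∉ f '' Set.Iic t → η ≤ dist y w →
  w ∈ frontier (connectedComponentIn (f '' Set.Iic t)ᶜ y) →
  ∀ (z : ℂ) (r ρ : ℝ), dist w z < r → ρ + r ≤ η → ∃ j : ℕ, f ∈ EvH z r ρ (1 / ((j : ℝ) + 1))

/-- FR-LIM: the limit. -/
def S_LIM : Prop := S_OP → S_EV → ∀ (D : Set ℂ), IsOpen D → ∀ (C a : ℝ), 0 < C → 0 < a → a < 2 →
  ∀ (μs : ℕ → ProbabilityMeasure C(unitInterval, ℂ)) (μ : ProbabilityMeasure C(unitInterval, ℂ)),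
  Tendsto μs atTop (𝓝 μ) →
  (∀ (z : ℂ) (r d ζ : ℝ), 0 < r → r ≤ d → Metric.ball z d ⊆ D → 0 < ζ →
    ∀ᶠ i in atTop, (μs i : Measure C(unitInterval, ℂ)) (EvH z r (d / 2) ζ) ≤
      ENNReal.ofReal (C * (r / d) ^ a)) →
  ∀ᵐ f : C(unitInterval, ℂ) ∂(μ : Measure C(unitInterval, ℂ)),
    dimH (Fr f ∩ D) ≤ ENNReal.ofReal (2 - a)

/-- FR-HL: the half-plane. -/
def S_HL : Prop := S_OP → S_LIM → S_EV → (∃ C : ℝ, 0 < C ∧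
  ∀ (z : ℂ) (r d ζ : ℝ) (n : ℕ), 0 < r → r ≤ d → Metric.ball z d ⊆ {w : ℂ | 0 < w.im} → 1 ≤ n →
    (n : ℝ) ^ (-(4/7) : ℝ) ≤ r → 10 * (n : ℝ) ^ (-(4/7) : ℝ) ≤ ζ →
      H984H.perc.real {ω | H984H.curve n ω ∈ EvH z r (d / 2) ζ} ≤ C * (r / d) ^ (2/3 : ℝ)) →
  ∀ φ : ℕ → ℕ, Tendsto φ atTop atTop → ∀ μ : ProbabilityMeasure C(unitInterval, ℂ),
  Tendsto (fun i => H984H.lawH (φ i)) atTop (𝓝 μ) →
    ∀ᵐ f : C(unitInterval, ℂ) ∂(μ : Measure C(unitInterval, ℂ)),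
      dimH (Fr f ∩ {z : ℂ | 0 < z.im}) ≤ 4/3

/-- FR-RL: the rectangle. -/
def S_RL : Prop := S_OP → S_LIM → S_EV → ∀ R : Rect, (∃ C : ℝ, 0 < C ∧
  ∃ δ0 : ℝ, 0 < δ0 ∧ ∀ (z : ℂ) (r d δ ζ : ℝ), 0 < r → r ≤ d → Metric.ball z d ⊆ R.D → 0 < δ →
    δ ≤ r → δ ≤ δ0 → 10 * δ ≤ ζ →
      R.prob δ (fun F => R.curve δ F ∈ EvH z r (d / 2) ζ) ≤ C * (r / d) ^ (2/3 : ℝ)) →
  ∀ δ : ℕ → ℝ, (∀ i, 0 < δ i) → Tendsto δ atTop (𝓝 0) → ∀ μ : ProbabilityMeasure X,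
  Tendsto (fun i => R.law (δ i)) atTop (𝓝 μ) →
    ∀ᵐ p ∂(μ : Measure X), dimH (Fr p.1 ∩ R.D) ≤ 4/3

end Pool.Agent.W424.FR
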